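import Pool.Agent.H59.Gen.Bound
import Pool.Graph.R_pool_sql_team_seeded_35f281b4.K7.H2.RR.Spread
import Pool.Graph.R_seed8.TH183.QS.Fin

set_option autoImplicit false

/-! The two flattenings. -/

namespace Pool.Agent.H59.Gen

open Finset Pool.Agent.TH176.Nag Pool.Agent.TH183.QC Pool.Agent.TH183.QS
open Pool.Agent.TH183.QN (TT)

section
variable {f e : ℕ} {K a σ : ℝ}

/-- the main term -/
theorem Gp.val (P : Gp f e K a σ) (i t x : ℝ) :
    ((e + K * f) / (K + a)) * ((e + K * f) * i + K * t / 6 + x * (a / 2)) =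
      σ ^ 2 * i + σ * t / 2 + x * (σ * (K - 9) / 6) := by
  have h1 := P.aK
  have h2 := P.ks
  have hK : K ≠ 0 := by have := P.K9; linarith
  have h3 : (e : ℝ) + K * f = K * σ / 3 := by linarith
  rw [P.Hk, h3, h1]
  field_simp
  ring

/-- the lines contain long intervals -/
theorem line_mem (P : Gp f e K a σ) {d j : ℕ} {c : ℤ} (hk1 : 0 ≤ yy f e K d j - (e - a * f) - 1 * a)
    (hc : c ∈ BB f e K a 1 (yy f e K d j)) :
    ∃ t0 k0 : ℤ, f * t0 - e * k0 = c ∧
      ∀ s : ℤ, 0 ≤ s → s ≤ j → ((t0 + e * s, k0 + f * s) : ℤ × ℤ) ∈ GS 1 K a d := by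
  have hK := P.K9
  have ha := P.a0
  have haf := P.af
  unfold BB at hc
  rw [mem_image] at hc
  obtain ⟨⟨k, x⟩, hkx, rfl⟩ := hc
  obtain ⟨h1, h2, -⟩ := of_FF P hkx hk1
  refine ⟨x, k, rfl, fun s hs0 hsj => ?_⟩
  have hs0R : (0 : ℝ) ≤ s := by exact_mod_cast hs0
  have hsjR : (s : ℝ) ≤ j := by exact_mod_cast hsj
  have hfs : 0 ≤ (f : ℤ) * s := mul_nonneg (by omega) hs0
  refine ⟨?_, ?_, ?_⟩
  · simp only; omega
  · simp only
    push_cast
    have h3 := mul_le_mul_of_nonneg_left hsjR (show (0 : ℝ) ≤ e + K * f by positivity)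
    unfold yy at h2
    linarith
  · simp only
    push_cast
    have h3 := mul_le_mul_of_nonneg_right haf.le hs0R
    linarith

/-- **two flattenings**, independence -/
theorem surA_two (P : Gp f e K a σ) {w : SS} (key : KeyS w) {r d M : ℕ} (hr : σ ^ 2 = r)
    (ht : σ * (K - 9) / 6 + WW f e K a ≤ σ * (2 * d + 3 - σ * (2 * M + 1)) / 2)
    (hS : SurA w (Op ((r * M : ℕ) : ℝ) (r : ℝ))) : SurA w (TT d) := by
  have hK := P.K9
  have ha := P.a0
  have haf := P.af
  have hσ := P.s0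
  have hfR := P.fR
  have heR := P.eR
  refine surA_gs P key ?_
  obtain ⟨u, v, huv⟩ := P.bez
  have hW0 : 0 ≤ WW f e K a := by
    unfold WW
    have : 0 < K - 9 := by linarith
    positivity
  have ht0 : 0 ≤ 2 * (d : ℝ) + 3 - σ * (2 * M + 1) := by
    have : 0 ≤ σ * (2 * d + 3 - σ * (2 * M + 1)) := by
      have : 0 ≤ σ * (K - 9) := mul_nonneg hσ.le (by linarith)
      linarith
    exact (mul_nonneg_iff_of_pos_left hσ).1 this
  have hη0 : 0 ≤ K * (2 * d + 3 - σ * (2 * M + 1)) / 6 := by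
    have := mul_nonneg (show (0 : ℝ) ≤ K by linarith) ht0
    linarith
  refine SurA_slabs (f : ℤ) (-(e : ℤ)) u v huv ?_ hS
  rintro ⟨b, j⟩ ⟨h1, h2, h3⟩
  simp only at h1 h2 h3
  refine ⟨h1, h2, ?_⟩
  obtain ⟨j, rfl⟩ := Int.eq_ofNat_of_zero_le h2
  have h5 : (b : ℤ) + r * j < r * M := by
    have : ((b + r * j : ℤ) : ℝ) < ((r * M : ℤ) : ℝ) := by
      push_cast at h3 ⊢
      exact h3
    exact_mod_cast this
  have hjM : j < M := by
    by_contra hcon
    have h6 : (M : ℤ) ≤ j := by exact_mod_cast not_lt.1 hcon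
    have h7 := mul_le_mul_of_nonneg_left h6 (show (0 : ℤ) ≤ r by positivity)
    omega
  have hi : (1 : ℝ) ≤ M - j := by
    have : (j : ℝ) + 1 ≤ M := by exact_mod_cast hjM
    linarith
  have h0 := P.yy_eq d M ((M : ℝ) - j)
  have e0 : (M : ℝ) - (M - j) = j := by ring
  rw [e0] at h0
  have hH : 0 < (e : ℝ) + K * f := by positivity
  have hHi : (e : ℝ) + K * f ≤ (e + K * f) * (M - j) := by
    have := mul_le_mul_of_nonneg_left hi hH.le
    linarith
  have hKf : K * 1 ≤ K * f := mul_le_mul_of_nonneg_left hfR (by linarith)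
  have hY : (e + K * f) - K ≤ yy f e K d j := by rw [h0]; linarith
  have haf' : a * 1 ≤ a * f := mul_le_mul_of_nonneg_left hfR ha.le
  have hk1 : 0 ≤ yy f e K d j - (e - a * f) - 1 * a := by rw [h0]; linarith
  refine ⟨BB f e K a 1 (yy f e K d j), ?_, ?_⟩
  · have h4 := card_low P hY hk1
    have e1 : yy f e K d j - ((e + K * f) - K) / 2 - a / 2 =
        (e + K * f) * (M - j) + K * (2 * d + 3 - σ * (2 * M + 1)) / 6 + (-1) * (a / 2) := by
      rw [h0]; ring
    rw [e1, P.val, hr] at h4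
    have h6 : (r : ℝ) * (M - j) ≤ (BB f e K a 1 (yy f e K d j)).card := by linarith
    have h7 : (r : ℤ) * (M - j) ≤ (BB f e K a 1 (yy f e K d j)).card := by exact_mod_cast h6
    simp only
    linarith
  · intro c hc
    obtain ⟨t0, k0, h4, h5⟩ := line_mem P hk1 hc
    refine ⟨-v * t0 + u * k0, fun s hs1 hs2 => ?_⟩
    have h6 := h5 (s - (-v * t0 + u * k0)) (by omega) (by simp only at hs2; omega)
    have e1 : u * c - -(e : ℤ) * s = t0 + e * (s - (-v * t0 + u * k0)) := by
      rw [← h4]; linear_combination t0 * huv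
    have e2 : v * c + f * s = k0 + f * (s - (-v * t0 + u * k0)) := by
      rw [← h4]; linear_combination k0 * huv
    rw [e1, e2]
    exact h6

/-- the set after the second flattening -/
def SB (f e : ℕ) (K a : ℝ) (d : ℕ) : Set (ℤ × ℤ) :=
  {p | 0 ≤ p.2 ∧ ∃ (k : ℕ) (x : ℤ), a * k ≤ x ∧ x + K * k ≤ yy f e K d (p.2.toNat : ℕ) ∧
    p.1 = f * x - e * k}

/-- the second flattening, emptiness -/
theorem empA_sb (P : Gp f e K a σ) {w : ES} {d : ℕ} (hS : EmpA w (SB f e K a d)) :
    EmpA w (GS 0 K a d) := by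
  have hK := P.K9
  obtain ⟨u, v, huv⟩ := P.bez
  refine EmpA_flat (f : ℤ) (-(e : ℤ)) u v huv ?_ hS
  rintro ⟨t, k⟩ T j ⟨h1, h2, h3⟩ ⟨g1, g2, g3⟩ hj
  simp only at h1 h2 h3 g1 g2 g3
  obtain ⟨k, rfl⟩ := Int.eq_ofNat_of_zero_le h1
  refine ⟨by simp, k, t, ?_, ?_, ?_⟩
  · push_cast at h3
    linarith
  · simp only [Int.toNat_natCast]
    unfold yy
    have hjR : (j : ℝ) ≤ T := by exact_mod_cast hj
    have h4 := mul_le_mul_of_nonneg_left hjR (show (0 : ℝ) ≤ e + K * f by positivity)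
    push_cast at g2
    linarith
  · simp only
    ring

/-- the number of lines in the row `M` -/
noncomputable def topC (f e : ℕ) (K : ℝ) : ℕ :=
  (⌊((e : ℝ) + K * f - K) / (2 * K)⌋₊ + 1) * (⌊((e : ℝ) + K * f - K) / 2⌋₊ + 1)

/-- **two flattenings**, emptiness -/
theorem empA_two (P : Gp f e K a σ) {w : ES} (key : KeyE w) {r d M : ℕ} (hr : σ ^ 2 = r)
    (ht3 : -3 ≤ 2 * d + 3 - σ * (2 * M + 1))
    (ht : σ * (2 * d + 3 - σ * (2 * M + 1)) / 2 ≤ -(σ * (K - 9) / 6 + WW f e K a + 4))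
    (hC : topC f e K ≤ M)
    (hS : EmpA w (Cl ((r * M : ℕ) : ℝ) (r : ℝ))) : EmpA w (TT d) := by
  have hK := P.K9
  have ha := P.a0
  have haf := P.af
  have hσ := P.s0
  have hfR := P.fR
  have heR := P.eR
  refine empA_gs P key (empA_sb P ?_)
  have hW0 : 0 ≤ WW f e K a := by
    unfold WW
    have : 0 < K - 9 := by linarith
    positivity
  have ht0 : 2 * (d : ℝ) + 3 - σ * (2 * M + 1) < 0 := by
    by_contra hcon
    push Not at hcon
    have h1 := mul_nonneg hσ.le hcon
    have : 0 ≤ σ * (K - 9) := mul_nonneg hσ.le (by linarith)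
    linarith
  obtain ⟨t, hte⟩ : ∃ t, t = 2 * (d : ℝ) + 3 - σ * (2 * M + 1) := ⟨_, rfl⟩
  rw [← hte] at ht3 ht ht0
  have hη0 : K * t / 6 < 0 := by
    have : K * t < 0 := mul_neg_of_pos_of_neg (by linarith) ht0
    linarith
  have hη1 : -(K / 2) ≤ K * t / 6 := by
    have : K * (-3) ≤ K * t := mul_le_mul_of_nonneg_left ht3 (by linarith)
    linarith
  have hH : 0 < (e : ℝ) + K * f := by positivity
  have hKf : K * 1 ≤ K * f := mul_le_mul_of_nonneg_left hfR (by linarith)
  have hr1 : 1 ≤ r := by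
    have : 0 < (r : ℝ) := by rw [← hr]; positivity
    exact_mod_cast this
  -- the rows below
  have hrow : ∀ j : ℕ, j < M → ∀ A : Finset ℤ, (∀ b ∈ A, ((b, (j : ℤ)) : ℤ × ℤ) ∈ SB f e K a d) →
      A.card + 1 ≤ r * (M - j) := by
    intro j hj A hA
    have hi : (1 : ℝ) ≤ M - j := by
      have : (j : ℝ) + 1 ≤ M := by exact_mod_cast hj
      linarith
    have h0 := P.yy_eq d M ((M : ℝ) - j)
    have e0 : (M : ℝ) - (M - j) = j := by ring
    rw [e0, ← hte] at h0
    have hHi : (e : ℝ) + K * f ≤ (e + K * f) * (M - j) := by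
      have := mul_le_mul_of_nonneg_left hi hH.le
      linarith
    have hY : (e + K * f) - K ≤ yy f e K d j := by rw [h0]; linarith
    have haf0 : 0 ≤ a * f := by positivity
    have hk1 : 0 ≤ yy f e K d j - (e - a * f) - 0 * a := by rw [h0]; linarith
    have h4 := card_up P hY hk1
    have e1 : yy f e K d j - ((e + K * f) - K) / 2 + a / 2 =
        (e + K * f) * (M - j) + K * t / 6 + 1 * (a / 2) := by
      rw [h0]; ring
    rw [e1, P.val, hr] at h4
    have h5 : A ⊆ BB f e K a 0 (yy f e K d j) := by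
      intro b hb
      obtain ⟨-, k, x, g1, g2, g3⟩ := hA b hb
      simp only [Int.toNat_natCast] at g1 g2 g3
      rw [g3]
      exact BB_of P k k x le_rfl (by rw [add_zero]; exact g1) g2
    have h6 : (A.card : ℝ) ≤ (BB f e K a 0 (yy f e K d j)).card := by exact_mod_cast card_le_card h5
    have h7 : ((A.card + 1 : ℕ) : ℝ) ≤ ((r * (M - j) : ℕ) : ℝ) := by
      push_cast [Nat.cast_sub hj.le]
      linarith
    exact_mod_cast h7
  refine K7.H2.RR.EmpA_top (n := r) (m := M) (C := topC f e K) hr1 (fun p hp => hp.1) ?_ ?_ ?_ ?_ hS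
  · intro j hj A hA
    have := hrow j hj A hA
    omega
  · intro A hA
    have h0 := P.yy_eq d M 0
    rw [sub_zero, mul_zero, zero_add, ← hte] at h0
    have hHK : 0 ≤ (e : ℝ) + K * f - K := by linarith
    have h1 : A ⊆ ((range (⌊((e : ℝ) + K * f - K) / (2 * K)⌋₊ + 1)) ×ˢ
        (range (⌊((e : ℝ) + K * f - K) / 2⌋₊ + 1))).image fun p : ℕ × ℕ => (f : ℤ) * p.2 - e * p.1 := by
      intro b hb
      obtain ⟨-, k, x, g1, g2, g3⟩ := hA b hb
      simp only [Int.toNat_natCast] at g1 g2 g3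
      rw [h0] at g2
      have hx0 : (0 : ℝ) ≤ x := le_trans (by positivity) g1
      have hx0' : 0 ≤ x := by exact_mod_cast hx0
      obtain ⟨x, rfl⟩ := Int.eq_ofNat_of_zero_le hx0'
      rw [mem_image]
      refine ⟨(k, x), ?_, g3.symm⟩
      rw [mem_product, mem_range, mem_range]
      push_cast at g2
      have hk0 : 0 ≤ K * k := by positivity
      constructor
      · have h2 : k ≤ ⌊((e : ℝ) + K * f - K) / (2 * K)⌋₊ := by
          apply Nat.le_floor
          rw [le_div_iff₀ (by linarith)]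
          push_cast at hx0
          linarith
        simp only
        omega
      · have h2 : x ≤ ⌊((e : ℝ) + K * f - K) / 2⌋₊ := by
          apply Nat.le_floor
          linarith
        simp only
        omega
    refine (card_le_card h1).trans (card_image_le.trans ?_)
    rw [card_product, card_range, card_range]
    exact le_rfl
  · intro j hj b hb
    obtain ⟨-, k, x, g1, g2, g3⟩ := hb
    simp only [Int.toNat_natCast] at g1 g2 g3
    have h0 := P.yy_eq d M ((M : ℝ) - j)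
    have e0 : (M : ℝ) - (M - j) = j := by ring
    rw [e0, ← hte] at h0
    have hi : (M : ℝ) - j ≤ -1 := by
      have : (M : ℝ) + 1 ≤ j := by exact_mod_cast hj
      linarith
    have hHi : (e + K * f) * ((M : ℝ) - j) ≤ -((e : ℝ) + K * f) := by
      have := mul_le_mul_of_nonneg_left hi hH.le
      linarith
    rw [h0] at g2
    have hx0 : (0 : ℝ) ≤ x := le_trans (by positivity) g1
    have hk0 : 0 ≤ K * k := by positivity
    linarith
  · intro e' he'
    refine ⟨e' + 1, by omega, by omega, fun A hA => ?_⟩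
    have h1 := hrow (M - (e' + 1)) (by omega) A hA
    have h2 : M - (M - (e' + 1)) = e' + 1 := by omega
    rw [h2] at h1
    omega

/-- independence in degree `d` -/
theorem indAt_two (P : Gp f e K a σ) {r d m : ℕ} (hr : σ ^ 2 = r)
    (ht : σ * (K - 9) / 6 + WW f e K a ≤ σ * (2 * d + 3 - σ * (2 * m + 1)) / 2) : IndAt r m d :=
  IndAt.of (surA_two P (keyS r m) hr ht (ss_op r m))

/-- emptiness in degree `d` -/
theorem empAt_two (P : Gp f e K a σ) {r d m : ℕ} (hr : σ ^ 2 = r)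
    (ht3 : -3 ≤ 2 * d + 3 - σ * (2 * m + 1))
    (ht : σ * (2 * d + 3 - σ * (2 * m + 1)) / 2 ≤ -(σ * (K - 9) / 6 + WW f e K a + 4))
    (hC : topC f e K ≤ m) : EmpAt r m d :=
  EmpAt.of (empA_two P (keyE r m) hr ht3 ht hC (es_cl r m))

end

end Pool.Agent.H59.Gen
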