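import Pool.Agent.H59.Gen.Rows

set_option autoImplicit false

/-! Bounds for the rows after the second flattening. -/

namespace Pool.Agent.H59.Gen

open Finset

/-- the error bound for the rows -/
noncomputable def WW (f e : ℕ) (K a : ℝ) : ℝ :=
  (K + a) / 8 + (K - 9 + a) * ((9 * f + e) / 9 + 1) / 2 + 1 / (4 * (K - 9)) + 1 / (8 * a)

/-- the level of the lines in a row -/
noncomputable def yy (f e : ℕ) (K : ℝ) (d : ℕ) (j : ℝ) : ℝ := K * d / 3 - (e + K * f) * j

section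
variable {f e : ℕ} {K a σ s Y : ℝ}

/-- the level, relative to the critical degree -/
theorem Gp.yy_eq (P : Gp f e K a σ) (d : ℕ) (M i : ℝ) :
    yy f e K d (M - i) = (e + K * f) * i + ((e + K * f) - K) / 2 +
      K * (2 * d + 3 - σ * (2 * M + 1)) / 6 := by
  unfold yy
  have h1 := P.ks
  linear_combination ((2 * M + 1) / 6) * h1

theorem Gp.kap (P : Gp f e K a σ) : K + a = K ^ 2 / 9 := by
  have := P.ka
  linarith

theorem Gp.aK (P : Gp f e K a σ) : a = K * (K - 9) / 9 := by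
  have := P.ka
  linarith

theorem Gp.a2 (P : Gp f e K a σ) : a < 16 / 15 * (K - 9) := by
  have h1 := P.aK
  have h2 := P.K9
  have h3 := P.K10
  rw [h1]
  nlinarith

theorem Gp.a1 (P : Gp f e K a σ) : a < 1 := by
  have h1 := P.a2
  have h3 := P.K10
  linarith

/-- `H / κ = 3 σ / K` -/
theorem Gp.Hk (P : Gp f e K a σ) : ((e : ℝ) + K * f) / (K + a) = 3 * σ / K := by
  have h1 := P.kap
  have h2 := P.ks
  have hK : 0 < K := by linarith [P.K9]
  have h3 : (e : ℝ) + K * f = K * σ / 3 := by linarith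
  rw [h1, h3]
  field_simp
  norm_num

/-- the rows of the set, exactly -/
theorem N_form (P : Gp f e K a σ) (hs1 : s ≤ 1) (hY : (e + K * f) - K ≤ Y)
    (hk1 : 0 ≤ Y - (e - a * f) - s * a) :
    ∃ (p n : ℕ) (φ φ' : ℝ), k1 f e K a s Y + 1 = f + p ∧ k2 K a s Y + 1 = f + p + n ∧
      (K + a) * (f + p - 1 + φ) = Y - (e - a * f) - s * a ∧
      (K + a) * (f + p - 1 + n + φ') = Y - s * a ∧ 0 ≤ φ ∧ φ < 1 ∧ 0 ≤ φ' ∧ φ' < 1 ∧
      (f : ℝ) + n ≤ (9 * f + e) / 9 + 1 := by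
  have hK := P.K9
  have ha := P.a0
  have haf := P.af
  have hκ : 0 < K + a := by linarith
  have hf := P.f1
  have hfR := P.fR
  have heR := P.eR
  have g1 := Nat.floor_le (div_nonneg hk1 hκ.le)
  have g2 := Nat.lt_floor_add_one ((Y - (e - a * f) - s * a) / (K + a))
  have hk2 : 0 ≤ Y - s * a := by linarith
  have g3 := Nat.floor_le (div_nonneg hk2 hκ.le)
  have g4 := Nat.lt_floor_add_one ((Y - s * a) / (K + a))
  have hle : k1 f e K a s Y ≤ k2 K a s Y := by
    unfold k1 k2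
    apply Nat.floor_mono
    rw [div_le_div_iff_of_pos_right hκ]
    linarith
  have hge : f ≤ k1 f e K a s Y + 1 := by
    unfold k1
    have h1 : ((f - 1 : ℕ) : ℝ) ≤ (Y - (e - a * f) - s * a) / (K + a) := by
      rw [le_div_iff₀ hκ, Nat.cast_sub hf]
      have : s * a ≤ 1 * a := mul_le_mul_of_nonneg_right hs1 ha.le
      push_cast
      linarith
    have h2 := Nat.le_floor h1
    omega
  obtain ⟨p, hp⟩ : ∃ p, k1 f e K a s Y + 1 = f + p := ⟨k1 f e K a s Y + 1 - f, by omega⟩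
  obtain ⟨n, hn⟩ : ∃ n, k2 K a s Y = k1 f e K a s Y + n := ⟨k2 K a s Y - k1 f e K a s Y, by omega⟩
  have hk1R : (k1 f e K a s Y : ℝ) = f + p - 1 := by
    have : ((k1 f e K a s Y + 1 : ℕ) : ℝ) = ((f + p : ℕ) : ℝ) := by rw [hp]
    push_cast at this
    linarith
  have hk2R : (k2 K a s Y : ℝ) = f + p - 1 + n := by
    rw [hn]
    push_cast
    rw [hk1R]
  have e1 : (⌊(Y - (e - a * f) - s * a) / (K + a)⌋₊ : ℝ) = f + p - 1 := hk1R
  have e2 : (⌊(Y - s * a) / (K + a)⌋₊ : ℝ) = f + p - 1 + n := hk2R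
  rw [e1] at g1 g2
  rw [e2] at g3 g4
  refine ⟨p, n, (Y - (e - a * f) - s * a) / (K + a) - (f + p - 1),
    (Y - s * a) / (K + a) - (f + p - 1 + n), hp, by omega, ?_, ?_, by linarith, by linarith,
    by linarith, by linarith, ?_⟩
  · have : (K + a) * ((f : ℝ) + p - 1 + ((Y - (e - a * f) - s * a) / (K + a) - (f + p - 1))) =
      (Y - (e - a * f) - s * a) / (K + a) * (K + a) := by ring
    rw [this, div_mul_cancel₀ _ hκ.ne']
  · have : (K + a) * ((f : ℝ) + p - 1 + n + ((Y - s * a) / (K + a) - (f + p - 1 + n))) =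
      (Y - s * a) / (K + a) * (K + a) := by ring
    rw [this, div_mul_cancel₀ _ hκ.ne']
  · -- `n ≤ ω / κ + 1`
    have h1 : (n : ℝ) < (e - a * f) / (K + a) + 1 := by
      have h2 : (Y - s * a) / (K + a) - (Y - (e - a * f) - s * a) / (K + a) = (e - a * f) / (K + a) := by
        rw [← sub_div]; congr 1; ring
      linarith
    have h3 : (e - a * f) / (K + a) ≤ e / 9 := by
      rw [div_le_div_iff₀ hκ (by norm_num)]
      have h4 : (0 : ℝ) ≤ a * f := by positivity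
      nlinarith
    linarith

theorem phi_low {κ x y : ℝ} (hκ : 0 < κ) (y0 : 0 ≤ y) (y1 : y < 1) :
    -(κ / 8) ≤ κ / 2 * ((x - 1 / 2) ^ 2 - (y - 1 / 2) ^ 2) := by
  have h1 : (y - 1 / 2) ^ 2 ≤ 1 / 4 := by nlinarith
  have h2 := sq_nonneg (x - 1 / 2)
  have h3 : κ / 2 * (-(1 / 4)) ≤ κ / 2 * ((x - 1 / 2) ^ 2 - (y - 1 / 2) ^ 2) :=
    mul_le_mul_of_nonneg_left (by linarith) (by linarith)
  linarith

theorem phi_up {κ x y : ℝ} (hκ : 0 < κ) (x0 : 0 ≤ x) (x1 : x < 1) :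
    κ / 2 * ((x - 1 / 2) ^ 2 - (y - 1 / 2) ^ 2) ≤ κ / 8 := by
  have h1 : (x - 1 / 2) ^ 2 ≤ 1 / 4 := by nlinarith
  have h2 := sq_nonneg (y - 1 / 2)
  have h3 : κ / 2 * ((x - 1 / 2) ^ 2 - (y - 1 / 2) ^ 2) ≤ κ / 2 * (1 / 4) :=
    mul_le_mul_of_nonneg_left (by linarith) (by linarith)
  linarith

theorem ww_le (P : Gp f e K a σ) {n : ℝ} (hfn : (f : ℝ) + n ≤ (9 * f + e) / 9 + 1) :
    (K + a) / 8 + ((K - 9) * f / 2 + 1 / (8 * (K - 9))) + ((K - 9) * n / 2 + 1 / (8 * (K - 9))) +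
      (a * (f + n) / 2 + 1 / (8 * a)) ≤ WW f e K a := by
  have hK := P.K9
  have ha := P.a0
  unfold WW
  have h5 : (K - 9 + a) * (f + n) ≤ (K - 9 + a) * ((9 * f + e) / 9 + 1) :=
    mul_le_mul_of_nonneg_left hfn (by linarith)
  have h6 : 1 / (8 * (K - 9)) + 1 / (8 * (K - 9)) = 1 / (4 * (K - 9)) := by
    have : K - 9 ≠ 0 := by linarith
    field_simp
    norm_num
  linarith

/-- **the inner rows are long** -/
theorem card_low (P : Gp f e K a σ) (hY : (e + K * f) - K ≤ Y) (hk1 : 0 ≤ Y - (e - a * f) - 1 * a) :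
    ((e + K * f) / (K + a)) * (Y - ((e + K * f) - K) / 2 - a / 2) - WW f e K a ≤
      (BB f e K a 1 Y).card := by
  have hK := P.K9
  have hK10 := P.K10
  have ha := P.a0
  have haf := P.af
  have ha2 := P.a2
  have hfR := P.fR
  have heR := P.eR
  have hκ : 0 < K + a := by linarith
  obtain ⟨p, n, φ, φ', hp, hn, h1, h2, p0, p1, q0, q1, hfn⟩ := N_form P le_rfl hY hk1
  rw [card_BB P hk1]
  have hsum : (∑ k ∈ range (k2 K a 1 Y + 1), ((tp f e K a 1 Y k : ℝ) + 1 - CC a 1 k)) ≤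
      ((∑ k ∈ range (k2 K a 1 Y + 1), (tp f e K a 1 Y k + 1 - CC a 1 k).toNat : ℕ) : ℝ) := by
    push_cast
    refine sum_le_sum fun k _ => ?_
    have := Int.self_le_toNat (tp f e K a 1 Y k + 1 - CC a 1 k)
    exact_mod_cast this
  refine le_trans ?_ hsum
  rw [sum_tp hp hn]
  have hKε : K = 9 + (K - 9) := by ring
  have b1 := flK_ge hKε (by linarith) (by linarith) Y f
  have b2 := flK_ge hKε (by linarith) (by linarith) (Y - K * (f + p)) n
  have b3 := ce_le ha P.a1 (a * 1 + a * p) (f + n)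
  have hmain := main_id (f := f) (e := e) (p := p) (n := n) (K := K) (a := a) (s := 1) (φ := φ) (φ' := φ')
    (Y := Y) hκ.ne' rfl rfl rfl h1 h2
  push_cast at b3
  have hφ2 := phi_low (x := φ) hκ q0 q1
  have hW := ww_le P hfn
  clear h1 h2 hsum hp hn haf ha2 hY hk1
  have e3 : (Y - ((e : ℝ) + K * f - K) / 2 + (1 / 2 - 1) * a) = Y - ((e + K * f) - K) / 2 - a / 2 := by ring
  rw [e3] at hmain
  linarith

/-- **the outer rows are short** -/
theorem card_up (P : Gp f e K a σ) (hY : (e + K * f) - K ≤ Y) (hk1 : 0 ≤ Y - (e - a * f) - 0 * a) :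
    ((BB f e K a 0 Y).card : ℝ) ≤
      ((e + K * f) / (K + a)) * (Y - ((e + K * f) - K) / 2 + a / 2) + WW f e K a + 3 := by
  have hK := P.K9
  have hK10 := P.K10
  have ha := P.a0
  have haf := P.af
  have ha2 := P.a2
  have hfR := P.fR
  have heR := P.eR
  have hκ : 0 < K + a := by linarith
  obtain ⟨p, n, φ, φ', hp, hn, h1, h2, p0, p1, q0, q1, hfn⟩ := N_form P zero_le_one hY hk1
  rw [card_BB P hk1]
  have hsum : ((∑ k ∈ range (k2 K a 0 Y + 1), (tp f e K a 0 Y k + 1 - CC a 0 k).toNat : ℕ) : ℝ) =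
      (∑ k ∈ range (k2 K a 0 Y + 1), ((tp f e K a 0 Y k : ℝ) + 1 - CC a 0 k)) := by
    push_cast
    refine sum_congr rfl fun k hk => ?_
    have hk' : k ≤ k2 K a 0 Y := by rw [mem_range] at hk; omega
    have h3 : (k : ℝ) ≤ (Y - 0 * a) / (K + a) := by
      have h8 : (k : ℝ) ≤ k2 K a 0 Y := by exact_mod_cast hk'
      have h9 := Nat.floor_le (div_nonneg (show 0 ≤ Y - 0 * a by linarith) hκ.le)
      unfold k2 at h8
      linarith
    rw [le_div_iff₀ hκ] at h3
    have h4 : 0 ≤ tp f e K a 0 Y k + 1 - CC a 0 k := by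
      unfold tp
      split_ifs with h5
      · unfold AA CC
        have h6 := Int.lt_floor_add_one (Y - K * k)
        have h7 : ⌈a * 0 + a * (k : ℝ)⌉ ≤ ⌊Y - K * k⌋ + 1 := by
          rw [Int.ceil_le]
          push_cast
          linarith
        linarith
      · push Not at h5
        unfold CC
        have h7 : ⌈a * 0 + a * (k : ℝ)⌉ ≤ ⌈a * 0 + a * ((k - f : ℕ) : ℝ)⌉ + e := by
          rw [Int.ceil_le]
          push_cast [Nat.cast_sub h5.1]
          have h8 := Int.le_ceil (a * 0 + a * ((k : ℝ) - f))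
          linarith
        linarith
    have h5 : (((tp f e K a 0 Y k + 1 - CC a 0 k).toNat : ℕ) : ℤ) = tp f e K a 0 Y k + 1 - CC a 0 k :=
      Int.toNat_of_nonneg h4
    exact_mod_cast h5
  rw [hsum, sum_tp hp hn]
  have hKε : K = 9 + (K - 9) := by ring
  have b1 := flK_le hKε (by linarith) (by linarith) Y f
  have b2 := flK_le hKε (by linarith) (by linarith) (Y - K * (f + p)) n
  have b3 := ce_ge ha P.a1 (a * 0 + a * p) (f + n)
  have hmain := main_id (f := f) (e := e) (p := p) (n := n) (K := K) (a := a) (s := 0) (φ := φ) (φ' := φ')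
    (Y := Y) hκ.ne' rfl rfl rfl h1 h2
  push_cast at b3
  have hφ2 := phi_up (y := φ') hκ p0 p1
  have hW := ww_le P hfn
  clear h1 h2 hsum hp hn haf ha2 hY hk1
  have e3 : (Y - ((e : ℝ) + K * f - K) / 2 + (1 / 2 - 0) * a) = Y - ((e + K * f) - K) / 2 + a / 2 := by ring
  rw [e3] at hmain
  linarith

end

end Pool.Agent.H59.Gen
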