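import Pool.Agent.H59.Gen.Asm

set_option autoImplicit false

/-! The choice of the parameters: a power of two and an odd number. -/

namespace Pool.Agent.H59.Gen

open Finset

/-- a bound for a convex function -/
theorem convex_bound {σ u u1 u2 : ℝ} (hσ : 0 < σ) (h1 : 0 < u1) (h2 : u1 * u2 = 1 / σ) (h3 : u1 ≤ u)
    (h4 : u ≤ u2) : u * σ / 2 + 3 / (8 * u) ≤ σ / 2 * (u1 + u2) := by
  have hu : 0 < u := by linarith
  have h5 : 0 ≤ (u - u1) * (u2 - u) := mul_nonneg (by linarith) (by linarith)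
  have h6 : 3 / (8 * u) ≤ 1 / (2 * u) := by
    rw [div_le_div_iff₀ (by linarith) (by linarith)]
    nlinarith
  have h7 : u * σ / 2 + 1 / (2 * u) = (u ^ 2 + 1 / σ) * σ / (2 * u) := by
    field_simp
  have h8 : u ^ 2 + 1 / σ ≤ u * (u1 + u2) := by rw [← h2]; nlinarith
  have h9 : (u ^ 2 + 1 / σ) * σ / (2 * u) ≤ (u * (u1 + u2)) * σ / (2 * u) := by
    apply div_le_div_of_nonneg_right _ (by linarith)
    exact mul_le_mul_of_nonneg_right h8 hσ.le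
  have h10 : (u * (u1 + u2)) * σ / (2 * u) = σ / 2 * (u1 + u2) := by
    field_simp
  linarith

theorem num1 {τ σ δ u : ℝ} (hτ : 16 ≤ τ) (hσ : σ = τ ^ 2) (hδ0 : 0 < δ) (hδσ : δ * σ ≤ 810 / 7)
    (hu0 : 0 < u) (hu5 : u ≤ δ + 1 / τ) : u ≤ 0.516 ∧ σ * u ^ 2 ≤ 68 := by
  have hτ0 : 0 < τ := by linarith
  have hσ0 : 256 ≤ σ := by rw [hσ]; nlinarith
  have hτi : 1 / τ ≤ 1 / 16 := one_div_le_one_div_of_le (by norm_num) hτ
  have hτp : 0 < 1 / τ := by positivity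
  have hδ1 : δ ≤ 0.453 := by
    have : δ * 256 ≤ δ * σ := mul_le_mul_of_nonneg_left hσ0 hδ0.le
    linarith
  have hτσ : τ * (1 / τ) = 1 := by field_simp
  obtain ⟨x, hx⟩ : ∃ x, x = 1 / τ := ⟨_, rfl⟩
  rw [← hx] at hu5 hτi hτp hτσ
  refine ⟨by linarith, ?_⟩
  have h1 : u ^ 2 ≤ (δ + x) ^ 2 := pow_le_pow_left₀ hu0.le hu5 2
  have h2 : σ * u ^ 2 ≤ σ * (δ + x) ^ 2 := mul_le_mul_of_nonneg_left h1 (by linarith)
  have h3 : σ * (δ + x) ^ 2 = δ * (δ * σ) + 2 * ((δ * σ) * x) + 1 := by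
    have : σ * x ^ 2 = 1 := by rw [hσ]; calc τ ^ 2 * x ^ 2 = (τ * x) ^ 2 := by ring
                                        _ = 1 := by rw [hτσ]; ring
    linear_combination this
  have h4 : δ * (δ * σ) ≤ 0.453 * (810 / 7) :=
    mul_le_mul hδ1 hδσ (mul_nonneg hδ0.le (by linarith)) (by norm_num)
  have h5 : (δ * σ) * x ≤ 810 / 7 * (1 / 16) := mul_le_mul hδσ hτi hτp.le (by norm_num)
  rw [h3] at h2
  norm_num at h4 h5 ⊢
  linarith

/-- the choice of the numbers -/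
theorem choice {τ σ : ℝ} (hτ : 16 ≤ τ) (hσ : σ = τ ^ 2) : ∃ (f h e n : ℕ) (u : ℝ), f = 2 * h + 1 ∧ e = 2 ^ n ∧
    7 * σ / 5 < e ∧ (e : ℝ) ≤ 14 * σ / 5 ∧ u * e = 9 * (9 * f + e - 3 * σ) ∧ 0 < u ∧ u ≤ 0.516 ∧
    σ * u ^ 2 ≤ 68 ∧ u * σ / 2 + 3 / (8 * u) ≤ 405 / 7 + τ := by
  have hσ1 : 256 ≤ σ := by rw [hσ]; nlinarith
  -- the power of two
  obtain ⟨n, hn1, hn2⟩ := exists_nat_pow_near (x := 14 * σ / 5) (y := (2 : ℝ)) (by linarith) one_lt_two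
  obtain ⟨e, he⟩ : ∃ e : ℕ, e = 2 ^ n := ⟨_, rfl⟩
  have heR : (e : ℝ) = 2 ^ n := by rw [he]; push_cast; rfl
  rw [pow_succ] at hn2
  rw [← heR] at hn1 hn2
  have he1 : 7 * σ / 5 < e := by linarith
  have he0 : (0 : ℝ) < e := by linarith
  -- the window
  obtain ⟨δ, hδ⟩ : ∃ δ, δ = 162 / (e : ℝ) := ⟨_, rfl⟩
  have hδe : δ * e = 162 := by rw [hδ]; field_simp
  have hδ0 : 0 < δ := by rw [hδ]; positivity
  obtain ⟨R, hR⟩ : ∃ R, R = Real.sqrt (δ ^ 2 / 4 + 1 / σ) := ⟨_, rfl⟩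
  have hR2 : R ^ 2 = δ ^ 2 / 4 + 1 / σ := by rw [hR]; exact Real.sq_sqrt (by positivity)
  have hτ0 : 0 < τ := by linarith
  have hσ0 : 0 < σ := by linarith
  have hR3 : R ≤ δ / 2 + 1 / τ := by
    rw [hR]
    apply Real.sqrt_le_iff.2
    refine ⟨by positivity, ?_⟩
    have e1 : 1 / σ = (1 / τ) ^ 2 := by rw [hσ]; field_simp
    rw [e1]
    have : 0 ≤ δ * (1 / τ) := by positivity
    nlinarith
  have hR4 : δ / 2 < R := by
    rw [hR]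
    apply Real.lt_sqrt_of_sq_lt
    have : 0 < 1 / σ := by positivity
    nlinarith
  obtain ⟨u1, hu1⟩ : ∃ u1, u1 = R - δ / 2 := ⟨_, rfl⟩
  obtain ⟨u2, hu2⟩ : ∃ u2, u2 = R + δ / 2 := ⟨_, rfl⟩
  have hu10 : 0 < u1 := by rw [hu1]; linarith
  have hu12 : u1 * u2 = 1 / σ := by rw [hu1, hu2]; linear_combination hR2
  -- the odd number
  obtain ⟨h, hh⟩ : ∃ h : ℕ, h = ⌊(3 * σ + u1 * e / 9 - e - 9) / 18⌋₊ + 1 := ⟨_, rfl⟩
  obtain ⟨f, hf⟩ : ∃ f : ℕ, f = 2 * h + 1 := ⟨_, rfl⟩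
  have hpos : 0 ≤ (3 * σ + u1 * e / 9 - e - 9) / 18 := by
    have : 0 < u1 * e := by positivity
    apply div_nonneg _ (by norm_num)
    linarith
  have g1 := Nat.floor_le hpos
  have g2 := Nat.lt_floor_add_one ((3 * σ + u1 * e / 9 - e - 9) / 18)
  have hhR : (h : ℝ) = (⌊(3 * σ + u1 * e / 9 - e - 9) / 18⌋₊ : ℝ) + 1 := by rw [hh]; push_cast; ring
  have hfR : (f : ℝ) = 2 * h + 1 := by rw [hf]; push_cast; ring
  obtain ⟨θ, hθ⟩ : ∃ θ, θ = 9 * f + e - 3 * σ := ⟨_, rfl⟩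
  have hθ1 : u1 * e / 9 < θ := by rw [hθ, hfR, hhR]; linarith
  have hθ2 : θ ≤ u2 * e / 9 := by
    have e1 : u2 * e / 9 = u1 * e / 9 + 18 := by rw [hu2, hu1]; linarith
    rw [e1, hθ, hfR, hhR]; linarith
  obtain ⟨u, hu⟩ : ∃ u, u = 9 * θ / e := ⟨_, rfl⟩
  have hue : u * e = 9 * θ := by rw [hu]; field_simp
  have hu3 : u1 ≤ u := by rw [hu, le_div_iff₀ he0]; linarith
  have hu4 : u ≤ u2 := by rw [hu, div_le_iff₀ he0]; linarith
  have hu0 : 0 < u := by linarith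
  have hδσ : δ * σ ≤ 810 / 7 := by
    have : δ * (7 * σ / 5) ≤ δ * e := mul_le_mul_of_nonneg_left he1.le hδ0.le
    linarith
  have hu5 : u ≤ δ + 1 / τ := by linarith
  obtain ⟨n1, n2⟩ := num1 hτ hσ hδ0 hδσ hu0 hu5
  refine ⟨f, h, e, n, u, hf, he, he1, hn1, by rw [hue, hθ], hu0, n1, n2, ?_⟩
  have hconv := convex_bound hσ0 hu10 hu12 hu3 hu4
  have e1 : u1 + u2 = 2 * R := by rw [hu1, hu2]; ring
  rw [e1] at hconv
  have h1 := mul_le_mul_of_nonneg_left hR3 hσ0.le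
  have e2 : σ * (δ / 2 + 1 / τ) = δ * σ / 2 + τ := by
    rw [hσ]; field_simp
  rw [e2] at h1
  linarith

theorem num2 {u ε : ℝ} (hu0 : 0 < u) (hu1 : u ≤ 0.516) (hεu : ε * (9 - u) = 9 * u) :
    u ≤ ε ∧ ε ≤ 1.061 * u := by
  have h9u : 0 < 9 - u := by linarith
  constructor
  · by_contra hcon
    push Not at hcon
    have : ε * (9 - u) < u * (9 - u) := mul_lt_mul_of_pos_right hcon h9u
    nlinarith
  · by_contra hcon
    push Not at hcon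
    have : 1.061 * u * (9 - u) < ε * (9 - u) := mul_lt_mul_of_pos_right hcon h9u
    nlinarith

theorem num3 {u ε a σ θ e : ℝ} (hσ : 0 < σ) (hu0 : 0 < u) (hu1 : u ≤ 0.516) (hσu : σ * u ^ 2 ≤ 68)
    (hε0 : u ≤ ε) (hε1 : ε ≤ 1.061 * u) (ha : a = ε + ε ^ 2 / 9) (hθ0 : 0 ≤ θ)
    (hn1 : e ≤ 14 * σ / 5) (hue : u * e = 9 * θ) (hεu : ε * (9 - u) = 9 * u) :
    σ * ε / 6 + (ε + a) * (σ / 3 + (θ / 9 + 1)) / 2 ≤ u * σ / 2 + 8.7 := by
  have hc1 : σ * ε / 6 + (ε + a) * (σ / 3) / 2 = u * σ / 2 + ε * (σ * u) / 18 + σ * ε ^ 2 / 54 := by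
    have e1 : ε = u + u * ε / 9 := by linarith
    rw [ha]
    linear_combination (σ / 2) * e1
  have hθu : θ / 9 ≤ 0.035 * (σ * u) := by
    have h2 : u * e ≤ u * (14 * σ / 5) := mul_le_mul_of_nonneg_left hn1 hu0.le
    nlinarith
  have hεσu : ε * (σ * u) ≤ 1.061 * 68 := by
    have h1 : ε * (σ * u) ≤ 1.061 * u * (σ * u) := mul_le_mul_of_nonneg_right hε1 (by positivity)
    have h2 : 1.061 * u * (σ * u) = 1.061 * (σ * u ^ 2) := by ring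
    linarith
  have hε2σ : σ * ε ^ 2 ≤ 1.126 * 68 := by
    have h1 : ε ^ 2 ≤ (1.061 * u) ^ 2 := pow_le_pow_left₀ (by linarith) hε1 2
    have h2 := mul_le_mul_of_nonneg_left h1 hσ.le
    have h3 : σ * (1.061 * u) ^ 2 = 1.061 ^ 2 * (σ * u ^ 2) := by ring
    rw [h3] at h2
    norm_num at h2 ⊢
    linarith
  have e1 : (ε + a) / 2 ≤ 1.031 * ε := by rw [ha]; nlinarith
  have h1 : (ε + a) / 2 * (θ / 9 + 1) ≤ 1.031 * ε * (0.035 * (σ * u) + 1) :=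
    mul_le_mul e1 (by linarith) (by linarith) (by linarith)
  have h2 : 1.031 * ε * (0.035 * (σ * u) + 1) = 0.036085 * (ε * (σ * u)) + 1.031 * ε := by ring
  have e4 : (ε + a) * (σ / 3 + (θ / 9 + 1)) / 2 = (ε + a) * (σ / 3) / 2 + (ε + a) / 2 * (θ / 9 + 1) := by
    ring
  rw [e4]
  norm_num at hεσu hε2σ h2 hε1 hu1 ⊢
  linarith

/-- the parameters from the numbers -/
theorem gp_of {σ u : ℝ} {f h e n : ℕ} (hσ1 : 256 ≤ σ) (hirr : Irrational σ) (hf : f = 2 * h + 1)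
    (he : e = 2 ^ n) (he1 : 7 * σ / 5 < e) (hue : u * e = 9 * (9 * f + e - 3 * σ)) (hu0 : 0 < u)
    (hu6 : u ≤ 0.516) : ∃ K a ε : ℝ, Gp f e K a σ ∧ ε = K - 9 ∧ ε * (9 - u) = 9 * u ∧
      a = ε + ε ^ 2 / 9 := by
  have he0 : (0 : ℝ) < e := by linarith
  have h9u : 0 < 9 - u := by linarith
  obtain ⟨K, hK⟩ : ∃ K, K = 81 / (9 - u) := ⟨_, rfl⟩
  have hKu : K * (9 - u) = 81 := by rw [hK]; field_simp
  obtain ⟨ε, hε⟩ : ∃ ε, ε = K - 9 := ⟨_, rfl⟩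
  have hεu : ε * (9 - u) = 9 * u := by rw [hε]; linarith
  obtain ⟨hε0, hε1⟩ := num2 hu0 hu6 hεu
  have hε2 : ε ≤ 0.548 := by linarith
  obtain ⟨a, ha⟩ : ∃ a, a = ε + ε ^ 2 / 9 := ⟨_, rfl⟩
  have ha1 : a ≤ 0.59 := by rw [ha]; nlinarith
  have hfe : (f : ℝ) ≤ 0.14 * e := by
    have : u * e ≤ 0.516 * e := mul_le_mul_of_nonneg_right hu6 he0.le
    linarith
  have hKe : K = (3 * e : ℕ) / (σ - (3 * f : ℕ)) := by
    have e1 : σ - ((3 * f : ℕ) : ℝ) = e * (9 - u) / 27 := by push_cast; linarith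
    rw [e1, hK, div_eq_div_iff h9u.ne' (by positivity)]
    push_cast
    ring
  refine ⟨K, a, ε, ⟨by omega, Nat.succ_le_of_lt (by exact_mod_cast he0), ?_, by linarith, by linarith, ?_,
    by linarith, ?_, ?_, ?_⟩, hε, hεu, ha⟩
  · have hcop : Nat.Coprime f e := by
      rw [he]
      apply Nat.Coprime.pow_right
      rw [Nat.coprime_two_right]
      exact ⟨h, hf⟩
    have h1 := Nat.isCoprime_iff_coprime.2 hcop
    obtain ⟨x, y, hxy⟩ := h1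
    exact ⟨x, -y, by linarith⟩
  · have : K = 9 + ε := by linarith
    rw [this, ha]; ring
  · have h1 : σ - 3 * f = e * (9 - u) / 27 := by linarith
    have h2 : K * (σ - 3 * f) = 3 * e := by
      rw [h1]
      linear_combination (e : ℝ) / 27 * hKu
    linarith
  · have h1 : a * f ≤ 0.59 * (0.14 * e) := mul_le_mul ha1 hfe (Nat.cast_nonneg f) (by norm_num)
    linarith
  · rw [hKe]
    apply Irrational.natCast_div
    · exact hirr.sub_natCast _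
    · have : 0 < e := by exact_mod_cast he0
      omega

theorem topC_le {σ K : ℝ} {f e : ℕ} (hσ1 : 256 ≤ σ) (hKp : 9 < K) (hK1 : K ≤ 9.6)
    (hks : K * σ = 3 * (f * K + e)) : (topC f e K : ℝ) ≤ σ ^ 2 - 6 * σ + 10 := by
  unfold topC
  have hH : (e : ℝ) + K * f = K * σ / 3 := by linarith
  have hK0 : 0 < K := by linarith
  rw [hH]
  have h1 : (K * σ / 3 - K) / (2 * K) = σ / 6 - 1 / 2 := by
    field_simp
    ring
  rw [h1]
  have h2 := Nat.floor_le (show 0 ≤ σ / 6 - 1 / 2 by linarith)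
  have h3 : 0 ≤ (K * σ / 3 - K) / 2 := by
    have : K * σ / 3 - K = K * (σ / 3 - 1) := by ring
    rw [this]
    have := mul_nonneg hK0.le (show 0 ≤ σ / 3 - 1 by linarith)
    linarith
  have h4 := Nat.floor_le h3
  have h5 : (K * σ / 3 - K) / 2 ≤ 1.6 * (σ - 3) := by
    have : (K * σ / 3 - K) / 2 = K / 6 * (σ - 3) := by ring
    rw [this]
    exact mul_le_mul_of_nonneg_right (by linarith) (by linarith)
  push_cast
  have h6 : ((⌊σ / 6 - 1 / 2⌋₊ : ℝ) + 1) * ((⌊(K * σ / 3 - K) / 2⌋₊ : ℝ) + 1) ≤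
      (σ / 6 + 1 / 2) * (1.6 * (σ - 3) + 1) :=
    mul_le_mul (by linarith) (by linarith) (by positivity) (by linarith)
  refine h6.trans ?_
  norm_num
  nlinarith

/-- **the parameters exist** -/
theorem exists_gp {τ : ℝ} (hτ : 16 ≤ τ) (hirr : Irrational (τ ^ 2)) :
    ∃ (f e : ℕ) (K a : ℝ), Gp f e K a (τ ^ 2) ∧
      τ ^ 2 * (K - 9) / 6 + WW f e K a + 4 ≤ τ + 75 ∧
      (topC f e K : ℝ) ≤ (τ ^ 2) ^ 2 - 6 * τ ^ 2 + 10 := by
  obtain ⟨σ, hσ⟩ : ∃ σ, σ = τ ^ 2 := ⟨_, rfl⟩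
  rw [← hσ] at hirr ⊢
  have hσ1 : 256 ≤ σ := by rw [hσ]; nlinarith
  obtain ⟨f, h, e, n, u, hf, he, he1, hn1, hue, hu0, hu6, hσu, hmain⟩ := choice hτ hσ
  obtain ⟨K, a, ε, P, hε, hεu, ha⟩ := gp_of hσ1 hirr hf he he1 hue hu0 hu6
  obtain ⟨hε0, hε1⟩ := num2 hu0 hu6 hεu
  have he0 : (0 : ℝ) < e := by linarith
  refine ⟨f, e, K, a, P, ?_, topC_le hσ1 P.K9 (by linarith [P.K10]) P.ks⟩
  obtain ⟨θ, hθ⟩ : ∃ θ, θ = 9 * (f : ℝ) + e - 3 * σ := ⟨_, rfl⟩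
  have hθ0 : 0 ≤ θ := by
    have : 0 ≤ u * e := by positivity
    rw [hue, ← hθ] at this
    linarith
  have h3 := num3 (by linarith) hu0 hu6 hσu hε0 hε1 ha hθ0 hn1 (by rw [hue, hθ]) hεu
  have hi1 : 1 / (4 * ε) ≤ 1 / (4 * u) := one_div_le_one_div_of_le (by linarith) (by linarith)
  have ha0 : ε ≤ a := by rw [ha]; nlinarith [sq_nonneg ε]
  have hi2 : 1 / (8 * a) ≤ 1 / (8 * u) := one_div_le_one_div_of_le (by linarith) (by linarith)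
  have hi3 : 1 / (4 * u) + 1 / (8 * u) = 3 / (8 * u) := by field_simp; norm_num
  have e3 : (9 * (f : ℝ) + e) / 9 + 1 = σ / 3 + (θ / 9 + 1) := by rw [hθ]; ring
  have ha1 : a ≤ 0.59 := by rw [ha]; nlinarith
  unfold WW
  rw [e3, ← hε]
  have hK1 : K ≤ 9.548 := by linarith
  norm_num at hK1 ha1 h3
  linarith

end Pool.Agent.H59.Gen
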