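import Pool.Agent.H59.Gen.Choice
import Pool.Graph.R_seed8.TH885.NW.Prop_

set_option autoImplicit false

/-! General collisions for every `r`: a window which shrinks. -/

namespace Pool.Agent.H59.Gen

open Finset Polynomial Filter Pool.Agent.TH176.Nag Pool.Agent.TH603.Sur Pool.Agent.TH183.QC
open Pool.Agent.TH183.QS Pool.Agent.TH183.QI Pool.Agent.H932R2 Pool.Agent.H932R3
open Pool.Agent.TH183.QN (TT EmpW)

universe u

/-- the width of the window -/
noncomputable def wid (r : ℕ) : ℝ := 2 / Real.sqrt (Real.sqrt r) + 150 / Real.sqrt r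

theorem EmpAt.mono' {r m d D : ℕ} (h : EmpAt r m D) (hd : d ≤ D) : EmpAt r m d := by
  refine EmpW.mono h ?_
  rintro p ⟨h1, h2, h3⟩
  exact ⟨h1, h2, by omega⟩

/-- **every number of points** -/
theorem every_r {r : ℕ} (hr : 10 ≤ r) (m : ℕ) (L : Type u) [Field L] [CharZero L] :
    ∃ F : MvPolynomial (Fin (r + 1)) L, F ≠ 0 ∧
      ∀ (c : L) (b : Fin r → L), MvPolynomial.eval (Fin.cons c b : Fin (r + 1) → L) F ≠ 0 →
        ∀ d : ℕ, wid r ≤ |2 * (d : ℝ) + 3 - Real.sqrt r * (2 * m + 1)| → JetDim r m c b d := by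
  have hrR : (10 : ℝ) ≤ r := by exact_mod_cast hr
  by_cases hsm : (m : ℝ) ≤ r - 6 * Real.sqrt (r : ℝ) + 11 ∨ IsSquare r
  · obtain ⟨F, hF, hF'⟩ := coll_start hr hsm L
    exact ⟨F, hF, fun c b hc d _ => hF' c b hc d⟩
  push Not at hsm
  obtain ⟨hm, hsq⟩ := hsm
  have hirr : Irrational (Real.sqrt r) := irrational_sqrt_natCast_iff.2 hsq
  obtain ⟨σ, hσ⟩ : ∃ σ, σ = Real.sqrt r := ⟨_, rfl⟩
  obtain ⟨τ, hτ⟩ : ∃ τ, τ = Real.sqrt σ := ⟨_, rfl⟩
  have hwid : wid r = 2 / τ + 150 / σ := by unfold wid; rw [← hσ, ← hτ]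
  have hσ0 : 3 ≤ σ := by rw [hσ]; exact Real.le_sqrt_of_sq_le (by linarith)
  have hτ2 : τ ^ 2 = σ := by rw [hτ]; exact Real.sq_sqrt (by linarith)
  have hτ0 : 0 < τ := by rw [hτ]; exact Real.sqrt_pos.2 (by linarith)
  have hσr : σ ^ 2 = r := by rw [hσ]; exact Real.sq_sqrt (by linarith)
  rw [hwid]
  rw [← hσ] at hirr hm ⊢
  rcases lt_or_ge τ 16 with hsmall | hlarge
  · obtain ⟨F, hF, hF'⟩ := coll_every hr m L
    refine ⟨F, hF, fun c b hc d hd => hF' c b hc d ?_⟩
    rw [← hσ]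
    have h1 : 2 / 3 + 9 / (4 * σ) < 2 / τ + 150 / σ := by
      rw [← hτ2]
      rw [div_add_div _ _ (by norm_num) (by positivity), div_add_div _ _ (by positivity) (by positivity),
        div_lt_div_iff₀ (by positivity) (by positivity)]
      have h2 : 0 < τ ^ 3 * (16 - τ) := by
        have : 0 < 16 - τ := by linarith
        positivity
      have h3 : 0 < τ ^ 3 := by positivity
      nlinarith
    have h2 : 1 / (4 * σ) ≤ 9 / (4 * σ) := by
      apply div_le_div_of_nonneg_right (by norm_num) (by linarith)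
    rcases le_abs.1 hd with h3 | h3
    · right; right; right
      linarith
    · right; right; left
      linarith
  · have hirr' : Irrational (τ ^ 2) := by rw [hτ2]; exact hirr
    obtain ⟨f, e, K, a, P, h1, h2⟩ := exists_gp hlarge hirr'
    rw [hτ2] at P h1 h2
    obtain ⟨w, hw⟩ : ∃ w, w = 2 / τ + 150 / σ := ⟨_, rfl⟩
    rw [← hw]
    have hwσ : σ * w = 2 * (τ + 75) := by
      rw [hw, ← hτ2]; field_simp; ring
    have hσ1 : 256 ≤ σ := by rw [← hτ2]; nlinarith
    have hw1 : w ≤ 1 := by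
      by_contra hcon
      push Not at hcon
      have h3 : σ * 1 < σ * w := mul_lt_mul_of_pos_left hcon (by linarith)
      rw [hwσ, ← hτ2] at h3
      nlinarith
    have hw0 : 0 < w := by rw [hw]; positivity
    have hC : topC f e K ≤ m := by
      have h3 : (topC f e K : ℝ) ≤ m := by
        rw [hσr] at h2
        linarith
      exact_mod_cast h3
    refine coll_wrap (r := r) (m := m) (by omega)
      (PL := fun d : ℕ => 2 * (d : ℝ) + 3 - σ * (2 * m + 1) ≤ -w)
      (PH := fun d : ℕ => w ≤ 2 * (d : ℝ) + 3 - σ * (2 * m + 1))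
      ⟨⌈σ * (2 * m + 1)⌉₊, fun d hd => by
        have h3 := Nat.le_ceil (σ * (2 * m + 1))
        have h4 : (0 : ℝ) ≤ d := Nat.cast_nonneg d
        have h5 : (d : ℝ) ≤ ⌈σ * (2 * m + 1)⌉₊ := by linarith
        exact_mod_cast h5⟩ ?_ ?_ L |>.imp fun F hF => ⟨hF.1, fun c b hc d hd => hF.2 c b hc d ?_⟩
    · intro d hd
      obtain ⟨D, hD⟩ : ∃ D : ℕ, D = ⌊(σ * (2 * m + 1) - w - 3) / 2⌋₊ := ⟨_, rfl⟩
      have h3 : (d : ℝ) ≤ (σ * (2 * m + 1) - w - 3) / 2 := by linarith
      have h4 : d ≤ D := by rw [hD]; exact Nat.le_floor h3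
      refine EmpAt.mono' ?_ h4
      have h5 := Nat.floor_le (show 0 ≤ (σ * (2 * m + 1) - w - 3) / 2 by
        have : (0 : ℝ) ≤ d := Nat.cast_nonneg d
        linarith)
      have h6 := Nat.lt_floor_add_one ((σ * (2 * m + 1) - w - 3) / 2)
      rw [← hD] at h5 h6
      refine empAt_two P hσr ?_ ?_ hC
      · linarith
      · have h7 : 2 * (D : ℝ) + 3 - σ * (2 * m + 1) ≤ -w := by linarith
        have h8 := mul_le_mul_of_nonneg_left h7 (show (0 : ℝ) ≤ σ by linarith)
        linarith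
    · intro d hd
      refine indAt_two P hσr ?_
      have h8 := mul_le_mul_of_nonneg_left hd (show (0 : ℝ) ≤ σ by linarith)
      linarith
    · rcases le_abs.1 hd with h3 | h3
      · exact Or.inr h3
      · left
        linarith

end Pool.Agent.H59.Gen
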