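import Mathlib

set_option autoImplicit false

/-! Sums of the floor function along arithmetic progressions. -/

namespace Pool.Agent.H59.Gen

open Finset

/-- the integral of the sawtooth -/
noncomputable def pp (z : ℝ) : ℝ := Int.fract z * (1 - Int.fract z) / 2

theorem pp_nonneg (z : ℝ) : 0 ≤ pp z := by
  unfold pp
  have h1 := Int.fract_nonneg z
  have h2 := Int.fract_lt_one z
  have := mul_nonneg h1 (show 0 ≤ 1 - Int.fract z by linarith)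
  linarith

theorem pp_le (z : ℝ) : pp z ≤ 1 / 8 := by
  unfold pp
  nlinarith [sq_nonneg (Int.fract z - 1 / 2)]

theorem fract_sub_cases {z ε : ℝ} (h0 : 0 < ε) (h1 : ε < 1) :
    (ε ≤ Int.fract z ∧ Int.fract (z - ε) = Int.fract z - ε ∧ ⌊z - ε⌋ = ⌊z⌋) ∨
    (Int.fract z < ε ∧ Int.fract (z - ε) = Int.fract z - ε + 1 ∧ ⌊z - ε⌋ = ⌊z⌋ - 1) := by
  have h2 := Int.fract_nonneg z
  have h3 := Int.fract_lt_one z
  have h4 := Int.floor_add_fract z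
  rcases le_or_gt ε (Int.fract z) with h | h
  · left
    have h5 : ⌊z - ε⌋ = ⌊z⌋ := by
      rw [Int.floor_eq_iff]
      constructor <;> linarith
    refine ⟨h, ?_, h5⟩
    have h6 := Int.floor_add_fract (z - ε)
    rw [h5] at h6
    linarith
  · right
    have h5 : ⌊z - ε⌋ = ⌊z⌋ - 1 := by
      rw [Int.floor_eq_iff]
      push_cast
      constructor <;> linarith
    refine ⟨h, ?_, h5⟩
    have h6 := Int.floor_add_fract (z - ε)
    rw [h5] at h6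
    push_cast at h6
    linarith

theorem step_low {ε : ℝ} (h0 : 0 < ε) (h1 : ε < 1) (z : ℝ) :
    (pp z - pp (z - ε)) / ε - ε / 2 ≤ (⌊z⌋ : ℝ) - z + 1 / 2 := by
  have h4 := Int.floor_add_fract z
  have h2 := Int.fract_nonneg z
  rw [sub_le_iff_le_add, div_le_iff₀ h0]
  unfold pp
  rcases fract_sub_cases (z := z) h0 h1 with ⟨h, h5, -⟩ | ⟨h, h5, -⟩
  · rw [h5]
    have : (⌊z⌋ : ℝ) = z - Int.fract z := by linarith
    rw [this]
    nlinarith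
  · rw [h5]
    have : (⌊z⌋ : ℝ) = z - Int.fract z := by linarith
    rw [this]
    nlinarith

theorem step_up {ε : ℝ} (h0 : 0 < ε) (h1 : ε < 1) (z : ℝ) :
    (⌊z⌋ : ℝ) - z + 1 / 2 ≤ (pp z - pp (z - ε)) / ε - ε / 2 + (⌊z⌋ - ⌊z - ε⌋) := by
  have h4 := Int.floor_add_fract z
  have h2 := Int.fract_nonneg z
  have e : (pp z - pp (z - ε)) / ε - ε / 2 + (⌊z⌋ - ⌊z - ε⌋) =
      (pp z - pp (z - ε) - ε * (ε / 2) + ε * (⌊z⌋ - ⌊z - ε⌋)) / ε := by
    field_simp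
  rw [e, le_div_iff₀ h0]
  unfold pp
  rcases fract_sub_cases (z := z) h0 h1 with ⟨h, h5, h6⟩ | ⟨h, h5, h6⟩
  · rw [h5, h6]
    have : (⌊z⌋ : ℝ) = z - Int.fract z := by linarith
    rw [this]
    nlinarith
  · rw [h5, h6]
    push_cast
    have : (⌊z⌋ : ℝ) = z - Int.fract z := by linarith
    rw [this]
    nlinarith

theorem sum_low {ε : ℝ} (h0 : 0 < ε) (h1 : ε < 1) (y : ℝ) (n : ℕ) :
    (pp y - pp (y - ε * n)) / ε - ε * n / 2 ≤ ∑ k ∈ range n, ((⌊y - ε * k⌋ : ℝ) - (y - ε * k) + 1 / 2) := by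
  induction n with
  | zero => simp
  | succ n ih =>
    rw [sum_range_succ]
    have h2 := step_low h0 h1 (y - ε * n)
    have e : y - ε * n - ε = y - ε * (n + 1 : ℕ) := by push_cast; ring
    rw [e] at h2
    have e2 : (pp y - pp (y - ε * (n + 1 : ℕ))) / ε - ε * (n + 1 : ℕ) / 2 =
        ((pp y - pp (y - ε * n)) / ε - ε * n / 2) +
        ((pp (y - ε * n) - pp (y - ε * (n + 1 : ℕ))) / ε - ε / 2) := by
      push_cast; ring
    rw [e2]
    linarith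

theorem sum_up {ε : ℝ} (h0 : 0 < ε) (h1 : ε < 1) (y : ℝ) (n : ℕ) :
    ∑ k ∈ range n, ((⌊y - ε * k⌋ : ℝ) - (y - ε * k) + 1 / 2) ≤
      (pp y - pp (y - ε * n)) / ε - ε * n / 2 + (⌊y⌋ - ⌊y - ε * n⌋) := by
  induction n with
  | zero => simp
  | succ n ih =>
    rw [sum_range_succ]
    have h2 := step_up h0 h1 (y - ε * n)
    have e : y - ε * n - ε = y - ε * (n + 1 : ℕ) := by push_cast; ring
    rw [e] at h2
    have e2 : (pp y - pp (y - ε * (n + 1 : ℕ))) / ε - ε * (n + 1 : ℕ) / 2 +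
        (⌊y⌋ - ⌊y - ε * (n + 1 : ℕ)⌋) =
        ((pp y - pp (y - ε * n)) / ε - ε * n / 2 + (⌊y⌋ - ⌊y - ε * n⌋)) +
        ((pp (y - ε * n) - pp (y - ε * (n + 1 : ℕ))) / ε - ε / 2 +
        (⌊y - ε * n⌋ - ⌊y - ε * (n + 1 : ℕ)⌋)) := by
      push_cast; ring
    rw [e2]
    linarith

theorem sum_id (n : ℕ) : ∑ k ∈ range n, (k : ℝ) = n * (n - 1) / 2 := by
  induction n with
  | zero => simp
  | succ n ih => rw [sum_range_succ, ih]; push_cast; ring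

theorem sum_main (ε y : ℝ) (n : ℕ) : ∑ k ∈ range n, ((⌊y - ε * k⌋ : ℝ) - (y - ε * k) + 1 / 2) =
    ∑ k ∈ range n, (⌊y - ε * k⌋ : ℝ) - (n * (y - 1 / 2) - ε * (n * (n - 1) / 2)) := by
  rw [← sum_id, mul_sum, ← nsmul_eq_mul, ← sum_const_nat' n (y - 1 / 2), ← sum_sub_distrib,
    ← sum_sub_distrib]
  · refine sum_congr rfl fun k _ => ?_
    ring
where
  sum_const_nat' (n : ℕ) (c : ℝ) : ∑ _k ∈ range n, c = n • c := by
    rw [sum_const, card_range]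

/-- **floor sums**, lower bound -/
theorem fl_ge {ε : ℝ} (h0 : 0 < ε) (h1 : ε < 1) (y : ℝ) (n : ℕ) :
    n * (y - 1 / 2) - ε * (n * (n - 1) / 2) - (ε * n / 2 + 1 / (8 * ε)) ≤
      ∑ k ∈ range n, (⌊y - ε * k⌋ : ℝ) := by
  have h2 := sum_low h0 h1 y n
  rw [sum_main] at h2
  have h3 := pp_nonneg y
  have h4 := pp_le (y - ε * n)
  have h5 : -(1 / (8 * ε)) ≤ (pp y - pp (y - ε * n)) / ε := by
    rw [le_div_iff₀ h0]
    have : -(1 / (8 * ε)) * ε = -(1 / 8) := by field_simp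
    rw [this]
    linarith
  linarith

/-- **floor sums**, upper bound -/
theorem fl_le {ε : ℝ} (h0 : 0 < ε) (h1 : ε < 1) (y : ℝ) (n : ℕ) :
    ∑ k ∈ range n, (⌊y - ε * k⌋ : ℝ) ≤
      n * (y - 1 / 2) - ε * (n * (n - 1) / 2) + (ε * n / 2 + 1 / (8 * ε) + 1) := by
  have h2 := sum_up h0 h1 y n
  rw [sum_main] at h2
  have h3 := pp_le y
  have h4 := pp_nonneg (y - ε * n)
  have h5 : (pp y - pp (y - ε * n)) / ε ≤ 1 / (8 * ε) := by
    rw [div_le_iff₀ h0]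
    have : 1 / (8 * ε) * ε = 1 / 8 := by field_simp
    rw [this]
    linarith
  have h6 := Int.floor_le y
  have h7 := Int.lt_floor_add_one (y - ε * n)
  linarith

theorem flK {K ε : ℝ} (hK : K = 9 + ε) (y : ℝ) (k : ℕ) : ⌊y - K * k⌋ = ⌊y - ε * k⌋ - 9 * k := by
  have : y - K * k = (y - ε * k) - ((9 * k : ℤ) : ℝ) := by rw [hK]; push_cast; ring
  rw [this, Int.floor_sub_intCast]

theorem sum_flK {K ε : ℝ} (hK : K = 9 + ε) (y : ℝ) (n : ℕ) :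
    ∑ k ∈ range n, (⌊y - K * k⌋ : ℝ) = ∑ k ∈ range n, (⌊y - ε * k⌋ : ℝ) - 9 * (n * (n - 1) / 2) := by
  rw [← sum_id, mul_sum, ← sum_sub_distrib]
  refine sum_congr rfl fun k _ => ?_
  rw [flK hK]
  push_cast
  ring

theorem flK_ge {K ε : ℝ} (hK : K = 9 + ε) (h0 : 0 < ε) (h1 : ε < 1) (y : ℝ) (n : ℕ) :
    n * (y - 1 / 2) - K * (n * (n - 1) / 2) - (ε * n / 2 + 1 / (8 * ε)) ≤
      ∑ k ∈ range n, (⌊y - K * k⌋ : ℝ) := by
  rw [sum_flK hK]
  have := fl_ge h0 h1 y n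
  have e : K * (n * (n - 1) / 2) = ε * (n * (n - 1) / 2) + 9 * (n * (n - 1) / 2) := by
    rw [hK]; ring
  linarith

theorem flK_le {K ε : ℝ} (hK : K = 9 + ε) (h0 : 0 < ε) (h1 : ε < 1) (y : ℝ) (n : ℕ) :
    ∑ k ∈ range n, (⌊y - K * k⌋ : ℝ) ≤
      n * (y - 1 / 2) - K * (n * (n - 1) / 2) + (ε * n / 2 + 1 / (8 * ε) + 1) := by
  rw [sum_flK hK]
  have := fl_le h0 h1 y n
  have e : K * (n * (n - 1) / 2) = ε * (n * (n - 1) / 2) + 9 * (n * (n - 1) / 2) := by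
    rw [hK]; ring
  linarith

theorem sum_ceil (α z : ℝ) (n : ℕ) : ∑ k ∈ range n, (⌈z + α * k⌉ : ℝ) =
    -∑ k ∈ range n, (⌊-z - α * k⌋ : ℝ) := by
  rw [← sum_neg_distrib]
  refine sum_congr rfl fun k _ => ?_
  have : -z - α * k = -(z + α * k) := by ring
  rw [this, Int.floor_neg]
  push_cast
  ring

theorem ce_le {α : ℝ} (h0 : 0 < α) (h1 : α < 1) (z : ℝ) (n : ℕ) :
    ∑ k ∈ range n, (⌈z + α * k⌉ : ℝ) ≤
      n * (z + 1 / 2) + α * (n * (n - 1) / 2) + (α * n / 2 + 1 / (8 * α)) := by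
  rw [sum_ceil]
  have := fl_ge h0 h1 (-z) n
  have e : (n : ℝ) * (-z - 1 / 2) = -(n * (z + 1 / 2)) := by ring
  rw [e] at this
  linarith

theorem ce_ge {α : ℝ} (h0 : 0 < α) (h1 : α < 1) (z : ℝ) (n : ℕ) :
    n * (z + 1 / 2) + α * (n * (n - 1) / 2) - (α * n / 2 + 1 / (8 * α) + 1) ≤
      ∑ k ∈ range n, (⌈z + α * k⌉ : ℝ) := by
  rw [sum_ceil]
  have := fl_le h0 h1 (-z) n
  have e : (n : ℝ) * (-z - 1 / 2) = -(n * (z + 1 / 2)) := by ring
  rw [e] at this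
  linarith

end Pool.Agent.H59.Gen
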