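import Pool.Graph.R_seed8.TH183.QS.Wrap

set_option autoImplicit false

/-! The parameters of two flattenings for a general number of points, and the first flattening. -/

namespace Pool.Agent.H59.Gen

open Pool.Agent.TH176.Nag Pool.Agent.TH183.QC Pool.Agent.TH183.QS
open Pool.Agent.TH183.QN (TT)

/-- the parameters: the direction `(e, f)` of the second flattening, the slopes `K` and `a` of the
two edges after the first flattening, and the square root `σ` of the number of points -/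
structure Gp (f e : ℕ) (K a σ : ℝ) : Prop where
  f1 : 1 ≤ f
  e1 : 1 ≤ e
  bez : ∃ u v : ℤ, (f : ℤ) * u + (-(e : ℤ)) * v = 1
  K9 : 9 < K
  K10 : K < 48 / 5
  ka : K * (K - 9) = 9 * a
  s0 : 0 < σ
  ks : K * σ = 3 * (f * K + e)
  af : a * f < e
  irr : Irrational K

/-- the triangle before the first flattening -/
def T0 (K : ℝ) (d : ℕ) : Set (ℤ × ℤ) :=
  {m | 0 ≤ m.2 ∧ (m.1 : ℝ) + K * m.2 ≤ K * d / 3 ∧ (K - 9) * ((d : ℝ) / 3 - m.2) ≤ m.1}

/-- sets around the result of the first flattening: inside for `s = 1`, outside for `s = 0` -/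
def GS (s K a : ℝ) (d : ℕ) : Set (ℤ × ℤ) :=
  {m | 0 ≤ m.2 ∧ (m.1 : ℝ) + K * m.2 ≤ K * d / 3 ∧ a * (m.2 + s) ≤ m.1}

section
variable {f e : ℕ} {K a σ : ℝ}

theorem Gp.a0 (P : Gp f e K a σ) : 0 < a := by
  have h1 := P.ka
  have h2 := P.K9
  have : 0 < K * (K - 9) := mul_pos (by linarith) (by linarith)
  linarith

theorem Gp.fR (P : Gp f e K a σ) : (1 : ℝ) ≤ f := by exact_mod_cast P.f1
theorem Gp.eR (P : Gp f e K a σ) : (1 : ℝ) ≤ e := by exact_mod_cast P.e1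

theorem gs_up (P : Gp f e K a σ) {d : ℕ} {t b T k : ℤ} (h1 : ((t, b) : ℤ × ℤ) ∈ T0 K d)
    (h2 : ((t, b + T) : ℤ × ℤ) ∈ T0 K d) (hk : 0 ≤ k) (hkT : k ≤ T) :
    ((t, k) : ℤ × ℤ) ∈ GS 0 K a d := by
  have hK := P.K9
  have hka := P.ka
  obtain ⟨g1, g2, g3⟩ := h1
  obtain ⟨g4, g5, g6⟩ := h2
  simp only at g1 g2 g3 g4 g5 g6
  obtain ⟨u, hu⟩ : ∃ u : ℝ, u = (d : ℝ) / 3 - b := ⟨_, rfl⟩
  have hkTR : (k : ℝ) ≤ T := by exact_mod_cast hkT
  have hbR : (0 : ℝ) ≤ b := by exact_mod_cast g1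
  push_cast at g5 g6
  have e1 : (K - 9) * u ≤ t := by rw [hu]; exact g3
  have e0 : K * (u - k) = K * d / 3 - K * b - K * k := by rw [hu]; ring
  have e2 : (t : ℝ) ≤ K * (u - k) := by
    have := mul_le_mul_of_nonneg_left hkTR (show (0 : ℝ) ≤ K by linarith)
    rw [e0]
    linarith
  refine ⟨hk, ?_, ?_⟩
  · simp only
    have : K * b ≥ 0 := by positivity
    linarith
  · simp only
    rw [add_zero]
    -- `9 a k = K (K - 9) k ≤ (K - 9) (K u - t) ≤ K t - (K - 9) t = 9 t`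
    have h3 := mul_le_mul_of_nonneg_left e2 (show (0 : ℝ) ≤ K - 9 by linarith)
    have h4 := mul_le_mul_of_nonneg_left e1 (show (0 : ℝ) ≤ K by linarith)
    have h5 : 9 * a * k = K * (K - 9) * k := by rw [hka]
    nlinarith

theorem gs_col (P : Gp f e K a σ) {d : ℕ} {t k : ℤ} (hm : ((t, k) : ℤ × ℤ) ∈ GS 1 K a d) :
    ∃ b0 : ℤ, ∀ s : ℤ, b0 ≤ s → s ≤ b0 + k → ((t, s) : ℤ × ℤ) ∈ T0 K d := by
  have hK := P.K9
  have hK0 : 0 < K := by linarith
  have hK9 : 0 < K - 9 := by linarith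
  have hka := P.ka
  have ha := P.a0
  obtain ⟨hk, h2, h3⟩ := hm
  simp only at hk h2 h3
  have hkR : (0 : ℝ) ≤ k := by exact_mod_cast hk
  have ht0 : (0 : ℝ) < t := lt_of_lt_of_le (mul_pos ha (by linarith)) h3
  obtain ⟨b, hb0, hb1, hb2⟩ : ∃ b : ℤ, 0 ≤ b ∧ (K - 9) * ((d : ℝ) / 3 - b) ≤ t ∧
      (t : ℝ) ≤ K * ((d : ℝ) / 3 - b - k) := by
    refine ⟨⌊(d : ℝ) / 3 - t / K - k⌋, ?_, ?_, ?_⟩
    · apply Int.floor_nonneg.2
      have : (t : ℝ) / K + k ≤ d / 3 := by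
        have h7 : (t : ℝ) / K + k = (t + K * k) / K := by field_simp
        rw [h7, div_le_iff₀ (by linarith)]
        linarith
      linarith
    · have h6 := Int.lt_floor_add_one ((d : ℝ) / 3 - t / K - k)
      obtain ⟨w, hw⟩ : ∃ w : ℝ, w = (d : ℝ) / 3 - (⌊(d : ℝ) / 3 - t / K - k⌋ : ℤ) := ⟨_, rfl⟩
      rw [← hw]
      have h7 : w < t / K + (k + 1) := by linarith
      have h8 : (K - 9) * w ≤ (K - 9) * (t / K + (k + 1)) := mul_le_mul_of_nonneg_left h7.le hK9.le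
      refine h8.trans ?_
      -- `(K - 9) (t / K + k + 1) ≤ t`
      have h9 : (K - 9) * (t / K + (k + 1)) = ((K - 9) * t + K * (K - 9) * (k + 1)) / K := by
        field_simp
      rw [h9, hka, div_le_iff₀ hK0]
      linarith
    · have h6 := Int.floor_le ((d : ℝ) / 3 - t / K - k)
      have h7 : (t : ℝ) / K ≤ d / 3 - (⌊(d : ℝ) / 3 - t / K - k⌋ : ℤ) - k := by linarith
      rw [div_le_iff₀ (by linarith)] at h7
      linarith
  refine ⟨b, fun s hs1 hs2 => ⟨by simp only; omega, ?_, ?_⟩⟩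
  · simp only
    have hs2' : (s : ℝ) ≤ b + k := by exact_mod_cast hs2
    have := mul_le_mul_of_nonneg_left hs2' (show (0 : ℝ) ≤ K by linarith)
    have e5 : K * ((d : ℝ) / 3 - b - k) = K * d / 3 - K * (b + k) := by ring
    linarith
  · simp only
    have hs1' : (b : ℝ) ≤ s := by exact_mod_cast hs1
    have := mul_le_mul_of_nonneg_left hs1' hK9.le
    have e5 : ∀ y : ℝ, (K - 9) * ((d : ℝ) / 3 - y) = (K - 9) * (d / 3) - (K - 9) * y := by intro y; ring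
    rw [e5] at hb1 ⊢
    linarith

/-- the triangle and the start of the key lemma -/
theorem t0_reg (d : ℕ) (K : ℝ) (a b : ℤ) :
    ((a, b) : ℤ × ℤ) ∈ Reg (-((d : ℝ) * (1 + (K / 3 - 3)))) (d * (2 - (K / 3 - 3)))
      (3 * (1 + (K / 3 - 3))) (3 * (2 - (K / 3 - 3))) ↔ ((2 * d - a - 6 * b, b) : ℤ × ℤ) ∈ T0 K d := by
  constructor
  · rintro ⟨h1, h2, h3⟩
    simp only at h1 h2 h3
    refine ⟨h1, ?_, ?_⟩
    · simp only; push_cast; linarith
    · simp only; push_cast; linarith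
  · rintro ⟨h1, h2, h3⟩
    simp only at h1 h2 h3
    push_cast at h2 h3
    refine ⟨h1, ?_, ?_⟩
    · simp only; linarith
    · simp only; linarith

theorem Gp.tau (P : Gp f e K a σ) : 0 < K / 3 - 3 ∧ K / 3 - 3 < 1 ∧ Irrational (K / 3 - 3) := by
  refine ⟨by linarith [P.K9], by linarith [P.K10], ?_⟩
  have h1 : K / 3 - 3 = K / ((3 : ℕ) : ℝ) - ((3 : ℕ) : ℝ) := by norm_num
  rw [h1]
  exact (P.irr.div_natCast (by norm_num)).sub_natCast 3

/-- the first flattening, independence -/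
theorem surA_gs (P : Gp f e K a σ) {w : SS} (key : KeyS w) {d : ℕ} (hS : SurA w (GS 1 K a d)) :
    SurA w (TT d) := by
  obtain ⟨t0, t1, t2⟩ := P.tau
  refine key d (K / 3 - 3) t0 t1 t2 ?_
  have h1 : SurA w (T0 K d) := by
    refine SurA_flat 1 0 1 0 (by norm_num) ?_ hS
    rintro ⟨t, k⟩ hp
    refine ⟨hp.1, ?_⟩
    obtain ⟨b0, hb⟩ := gs_col P hp
    refine ⟨b0, fun s h1 h2 => ?_⟩
    have := hb s h1 h2
    simpa using this
  refine h1.comap (-1) (-6) 0 1 (2 * d) 0 (by norm_num) ?_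
  rintro ⟨t, b⟩ hm
  refine ⟨(2 * d - t - 6 * b, b), (t0_reg _ _ _ _).2 ?_, ?_⟩
  · have e1 : 2 * (d : ℤ) - (2 * d - t - 6 * b) - 6 * b = t := by ring
    rw [e1]; exact hm
  · ext
    · simp only; ring
    · simp only; ring

/-- the first flattening, emptiness -/
theorem empA_gs (P : Gp f e K a σ) {w : ES} (key : KeyE w) {d : ℕ} (hS : EmpA w (GS 0 K a d)) :
    EmpA w (TT d) := by
  obtain ⟨t0, t1, t2⟩ := P.tau
  refine key d (K / 3 - 3) t0 t1 ?_
  have h1 : EmpA w (T0 K d) := by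
    refine EmpA_flat 1 0 1 0 (by norm_num) ?_ hS
    rintro ⟨t, b⟩ T k h1 h2 hk
    have h3 : ((t, b + T) : ℤ × ℤ) ∈ T0 K d := by
      have : ((t - 0 * T, b + 1 * T) : ℤ × ℤ) = (t, b + T) := by ext <;> simp
      rw [← this]; exact h2
    have h4 := gs_up P h1 h3 (Int.natCast_nonneg k) hk
    simpa using h4
  refine h1.comap (-1) (-6) 0 1 (2 * d) 0 (by norm_num) ?_
  rintro ⟨a, b⟩ hm
  have h2 := (t0_reg d K a b).1 hm
  have e1 : ((-1 * a + -6 * b + 2 * (d : ℤ), 0 * a + 1 * b + 0) : ℤ × ℤ) = (2 * d - a - 6 * b, b) := by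
    ext
    · simp only; ring
    · simp only; ring
  simp only [e1]
  exact h2

end

end Pool.Agent.H59.Gen
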