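import Pool.Agent.H59.Gen.Par
import Pool.Agent.H59.Gen.Floor

set_option autoImplicit false

/-! The rows after the second flattening. -/

namespace Pool.Agent.H59.Gen

open Finset

/-- the right end of the row `k` -/
noncomputable def AA (K Y : ℝ) (k : ℕ) : ℤ := ⌊Y - K * k⌋

/-- the left end of the row `k` -/
noncomputable def CC (a s : ℝ) (k : ℕ) : ℤ := ⌈a * s + a * k⌉

/-- the last row with a full strip -/
noncomputable def k1 (f e : ℕ) (K a s Y : ℝ) : ℕ := ⌊(Y - (e - a * f) - s * a) / (K + a)⌋₊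

/-- the last row -/
noncomputable def k2 (K a s Y : ℝ) : ℕ := ⌊(Y - s * a) / (K + a)⌋₊

/-- the end of the first points in the row `k` -/
noncomputable def tp (f e : ℕ) (K a s Y : ℝ) (k : ℕ) : ℤ :=
  if k < f ∨ k1 f e K a s Y < k then AA K Y k else CC a s (k - f) + e - 1

/-- the first points of the lines -/
noncomputable def FF (f e : ℕ) (K a s Y : ℝ) : Finset (Σ _ : ℕ, ℤ) :=
  (range (k2 K a s Y + 1)).sigma fun k => Icc (CC a s k) (tp f e K a s Y k)

/-- the lines -/
noncomputable def BB (f e : ℕ) (K a s Y : ℝ) : Finset ℤ :=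
  (FF f e K a s Y).image fun p => (f : ℤ) * p.2 - e * p.1

section
variable {f e : ℕ} {K a σ s Y : ℝ}

theorem mem_FF {k : ℕ} {x : ℤ} : (⟨k, x⟩ : Σ _ : ℕ, ℤ) ∈ FF f e K a s Y ↔
    k ≤ k2 K a s Y ∧ CC a s k ≤ x ∧ x ≤ tp f e K a s Y k := by
  unfold FF
  rw [mem_sigma, mem_range, mem_Icc, Nat.lt_succ_iff]

/-- the conditions for a first point -/
theorem FF_of (P : Gp f e K a σ) {k : ℕ} {x : ℤ} (h1 : a * (k + s) ≤ x) (h2 : x + K * k ≤ Y)
    (h3 : k < f ∨ (x : ℝ) < a * (k - f + s) + e) : (⟨k, x⟩ : Σ _ : ℕ, ℤ) ∈ FF f e K a s Y := by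
  have hK := P.K9
  have ha := P.a0
  rw [mem_FF]
  refine ⟨?_, ?_, ?_⟩
  · unfold k2
    apply Nat.le_floor
    rw [le_div_iff₀ (by linarith)]
    linarith
  · unfold CC
    rw [Int.ceil_le]
    linarith
  · unfold tp
    split_ifs with h
    · unfold AA
      rw [Int.le_floor]
      linarith
    · push Not at h
      have h4 := h3.resolve_left (by omega)
      have h5 : x - e < CC a s (k - f) := by
        unfold CC
        rw [Int.lt_ceil]
        push_cast [Nat.cast_sub h.1]
        linarith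
      omega

theorem of_FF (P : Gp f e K a σ) {k : ℕ} {x : ℤ} (h : (⟨k, x⟩ : Σ _ : ℕ, ℤ) ∈ FF f e K a s Y)
    (hk1 : 0 ≤ Y - (e - a * f) - s * a) :
    a * (k + s) ≤ x ∧ x + K * k ≤ Y ∧ (k < f ∨ (x : ℝ) < a * (k - f + s) + e) := by
  have hK := P.K9
  have ha := P.a0
  obtain ⟨h1, h2, h3⟩ := mem_FF.1 h
  have h4 : a * (k + s) ≤ x := by
    unfold CC at h2
    rw [Int.ceil_le] at h2
    linarith
  have hκ : 0 < K + a := by linarith
  refine ⟨h4, ?_, ?_⟩
  · unfold tp at h3
    split_ifs at h3 with h5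
    · unfold AA at h3
      rw [Int.le_floor] at h3
      linarith
    · push Not at h5
      have h6 : x - e < CC a s (k - f) := by omega
      unfold CC at h6
      rw [Int.lt_ceil] at h6
      push_cast [Nat.cast_sub h5.1] at h6
      have h7 : (k : ℝ) ≤ (Y - (e - a * f) - s * a) / (K + a) := by
        have h8 : (k : ℝ) ≤ k1 f e K a s Y := by exact_mod_cast h5.2
        have h9 := Nat.floor_le (div_nonneg hk1 hκ.le)
        unfold k1 at h8
        linarith
      rw [le_div_iff₀ hκ] at h7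
      linarith
  · rcases Nat.lt_or_ge k f with h5 | h5
    · exact Or.inl h5
    · right
      unfold tp at h3
      split_ifs at h3 with h6
      · have h7 := h6.resolve_left (by omega)
        unfold k1 at h7
        have h8 := Nat.lt_of_floor_lt h7
        rw [div_lt_iff₀ hκ] at h8
        unfold AA at h3
        rw [Int.le_floor] at h3
        linarith
      · have h7 : x - e < CC a s (k - f) := by omega
        unfold CC at h7
        rw [Int.lt_ceil] at h7
        push_cast [Nat.cast_sub h5] at h7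
        linarith

/-- different first points are on different lines -/
theorem FF_inj (P : Gp f e K a σ) (hk1 : 0 ≤ Y - (e - a * f) - s * a) {k k' : ℕ} {x x' : ℤ}
    (h : (⟨k, x⟩ : Σ _ : ℕ, ℤ) ∈ FF f e K a s Y) (h' : (⟨k', x'⟩ : Σ _ : ℕ, ℤ) ∈ FF f e K a s Y)
    (heq : (f : ℤ) * x - e * k = f * x' - e * k') (hkk : k ≤ k') : k = k' ∧ x = x' := by
  obtain ⟨g1, g2, g3⟩ := of_FF P h hk1
  obtain ⟨g4, g5, g6⟩ := of_FF P h' hk1
  obtain ⟨u, v, huv⟩ := P.bez
  have haf := P.af
  have ha := P.a0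
  obtain ⟨n, hn⟩ : ∃ n : ℤ, n = u * (k' - k) - v * (x' - x) := ⟨_, rfl⟩
  have e1 : (k' : ℤ) - k = f * n := by
    rw [hn]
    linear_combination (-(k' : ℤ) + k) * huv - v * heq
  have e2 : x' - x = e * n := by
    rw [hn]
    linear_combination (-x' + x) * huv - u * heq
  have hf : (1 : ℤ) ≤ f := by exact_mod_cast P.f1
  have hn0 : 0 ≤ n := by
    by_contra hcon
    have : (f : ℤ) * n < 0 := mul_neg_of_pos_of_neg (by omega) (by omega)
    omega
  rcases hn0.eq_or_lt with h0 | h0
  · rw [← h0] at e1 e2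
    constructor
    · simp at e1; omega
    · simp at e2; omega
  · exfalso
    have h1 : (f : ℤ) * 1 ≤ f * n := mul_le_mul_of_nonneg_left (by omega) (by omega)
    have h2 := g6.resolve_left (by omega)
    have hkR : (k' : ℝ) = k + f * n := by
      have : (k' : ℤ) = k + f * n := by omega
      exact_mod_cast this
    have hxR : (x' : ℝ) = x + e * n := by
      have : x' = x + e * n := by omega
      exact_mod_cast this
    have hnR : (1 : ℝ) ≤ n := by exact_mod_cast h0
    rw [hkR, hxR] at h2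
    have h3 : a * f * (n - 1) ≤ e * (n - 1) := mul_le_mul_of_nonneg_right haf.le (by linarith)
    nlinarith

theorem card_BB (P : Gp f e K a σ) (hk1 : 0 ≤ Y - (e - a * f) - s * a) :
    (BB f e K a s Y).card =
      ∑ k ∈ range (k2 K a s Y + 1), (tp f e K a s Y k + 1 - CC a s k).toNat := by
  unfold BB
  rw [card_image_of_injOn]
  · unfold FF
    rw [card_sigma]
    refine sum_congr rfl fun k _ => ?_
    rw [Int.card_Icc]
  · rintro ⟨k, x⟩ h ⟨k', x'⟩ h' heq
    simp only at heq
    rw [mem_coe] at h h'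
    rcases le_total k k' with h1 | h1
    · obtain ⟨rfl, rfl⟩ := FF_inj P hk1 h h' heq h1
      rfl
    · obtain ⟨rfl, rfl⟩ := FF_inj P hk1 h' h heq.symm h1
      rfl

/-- every line has a first point -/
theorem BB_of (P : Gp f e K a σ) (N : ℕ) : ∀ (k : ℕ) (x : ℤ), k ≤ N → a * (k + s) ≤ x → x + K * k ≤ Y →
    (f : ℤ) * x - e * k ∈ BB f e K a s Y := by
  induction N with
  | zero =>
    intro k x hk h1 h2
    unfold BB
    rw [mem_image]
    exact ⟨⟨k, x⟩, FF_of P h1 h2 (Or.inl (by have := P.f1; omega)), rfl⟩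
  | succ N ih =>
    intro k x hk h1 h2
    have hf := P.f1
    have hK := P.K9
    have he := P.eR
    by_cases h3 : k < f ∨ (x : ℝ) < a * (k - f + s) + e
    · unfold BB
      rw [mem_image]
      exact ⟨⟨k, x⟩, FF_of P h1 h2 h3, rfl⟩
    · push Not at h3
      obtain ⟨h4, h5⟩ := h3
      have h6 := ih (k - f) (x - e) (by omega) (by
        push_cast [Nat.cast_sub h4]; linarith) (by
        push_cast [Nat.cast_sub h4]
        have : 0 ≤ K * f := by positivity
        linarith)
      have e1 : (f : ℤ) * (x - e) - e * ((k - f : ℕ) : ℤ) = f * x - e * k := by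
        push_cast [Nat.cast_sub h4]; ring
      rw [e1] at h6
      exact h6

/-! ### the sum -/

/-- the sum in three parts -/
theorem sum_tp {p n : ℕ} (hp : k1 f e K a s Y + 1 = f + p) (hn : k2 K a s Y + 1 = f + p + n) :
    ∑ k ∈ range (k2 K a s Y + 1), ((tp f e K a s Y k : ℝ) + 1 - CC a s k) =
      ∑ l ∈ range f, (⌊Y - K * l⌋ : ℝ) + f + p * e + ∑ l ∈ range n, (⌊(Y - K * (f + p)) - K * l⌋ : ℝ) + n -
        ∑ l ∈ range (f + n), (⌈(a * s + a * p) + a * l⌉ : ℝ) := by
  have hC : ∑ k ∈ range (f + p + n), (CC a s k : ℝ) = ∑ k ∈ range p, (CC a s k : ℝ) +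
      ∑ l ∈ range (f + n), (⌈(a * s + a * p) + a * l⌉ : ℝ) := by
    have e1 : f + p + n = p + (f + n) := by ring
    rw [e1, sum_range_add]
    congr 1
    refine sum_congr rfl fun l _ => ?_
    unfold CC
    push_cast
    congr 2
    ring
  rw [sum_sub_distrib, hn, hC]
  have hT : ∑ k ∈ range (f + p + n), ((tp f e K a s Y k : ℝ) + 1) =
      (∑ l ∈ range f, (⌊Y - K * l⌋ : ℝ) + f) + (∑ l ∈ range p, (CC a s l : ℝ) + p * e) +
      (∑ l ∈ range n, (⌊(Y - K * (f + p)) - K * l⌋ : ℝ) + n) := by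
    rw [sum_range_add, sum_range_add]
    congr 1
    · congr 1
      · have h1 : ∑ l ∈ range f, ((tp f e K a s Y l : ℝ) + 1) = ∑ l ∈ range f, ((⌊Y - K * l⌋ : ℝ) + 1) := by
          refine sum_congr rfl fun l hl => ?_
          unfold tp
          rw [if_pos (Or.inl (mem_range.1 hl))]
          rfl
        rw [h1, sum_add_distrib, sum_const, card_range, nsmul_eq_mul, mul_one]
      · have h1 : ∑ l ∈ range p, ((tp f e K a s Y (f + l) : ℝ) + 1) = ∑ l ∈ range p, ((CC a s l : ℝ) + e) := by
          refine sum_congr rfl fun l hl => ?_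
          have hl' := mem_range.1 hl
          unfold tp
          rw [if_neg (by omega)]
          have e1 : f + l - f = l := by omega
          rw [e1]
          push_cast
          ring
        rw [h1, sum_add_distrib, sum_const, card_range, nsmul_eq_mul]
    · have h1 : ∑ l ∈ range n, ((tp f e K a s Y (f + p + l) : ℝ) + 1) =
          ∑ l ∈ range n, ((⌊(Y - K * (f + p)) - K * l⌋ : ℝ) + 1) := by
        refine sum_congr rfl fun l hl => ?_
        unfold tp
        rw [if_pos (Or.inr (by omega))]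
        unfold AA
        congr 3
        push_cast
        ring
      rw [h1, sum_add_distrib, sum_const, card_range, nsmul_eq_mul, mul_one]
  rw [hT]
  ring

/-- the main term -/
theorem main_id {f e p n K a κ ω H Y s φ φ' : ℝ} (hκ0 : κ ≠ 0) (hκ : κ = K + a) (hω : ω = e - a * f)
    (hH : H = e + K * f) (h1 : κ * (f + p - 1 + φ) = Y - ω - s * a)
    (h2 : κ * (f + p - 1 + n + φ') = Y - s * a) :
    (f * (Y - 1 / 2) - K * (f * (f - 1) / 2)) + f + p * e +
      (n * (Y - K * (f + p) - 1 / 2) - K * (n * (n - 1) / 2)) + n -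
      ((f + n) * (a * s + a * p + 1 / 2) + a * ((f + n) * (f + n - 1) / 2)) =
    H / κ * (Y - (H - K) / 2 + (1 / 2 - s) * a) + κ / 2 * ((φ - 1 / 2) ^ 2 - (φ' - 1 / 2) ^ 2) := by
  have e1 : ω = κ * (n + φ' - φ) := by linarith
  have e2 : e = κ * (n + φ' - φ) + a * f := by linarith
  have e3 : K = κ - a := by linarith
  have e4 : Y = κ * (f + p - 1 + n + φ') + s * a := by linarith
  have e5 : H = κ * (f + n + φ' - φ) := by rw [hH, e2, e3]; ring
  have e6 : H / κ = f + n + φ' - φ := by rw [e5]; field_simp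
  rw [e6, e5, e4, e2, e3]
  ring

end

end Pool.Agent.H59.Gen
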